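import Pool.Agent.AP41.Defs

set_option autoImplicit false

/-!
# AP41/Conn: two linear extensions are connected by allowed swaps of neighbours

Fix `h ∈ LE Q` and label the letters by their positions in `h`; swap away the descents of the
labelled word `g` (the sum `∑ i, i * lab (g i)` increases).
-/

namespace Pool.AP41

open Pool.HB45 Pool.PH43

theorem pot_le {N : ℕ} {lab : Fin (N + 1) → ℕ} (hl : ∀ x, lab x ≤ N)
    (g : Equiv.Perm (Fin (N + 1))) : pot lab g ≤ (N + 1) * (N * N) := by
  unfold pot
  calc ∑ i : Fin (N + 1), i.val * lab (g i) ≤ ∑ _i : Fin (N + 1), N * N :=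
        Finset.sum_le_sum fun i _ => Nat.mul_le_mul (Nat.lt_succ_iff.1 i.isLt) (hl _)
    _ = (N + 1) * (N * N) := by simp

theorem conn_aux {N : ℕ} {Q : Rel (N + 1)} {F : Equiv.Perm (Fin (N + 1)) → ℝ} {L : ℝ} (hL : 0 ≤ L)
    (hF : Lip Q F L) {h : Equiv.Perm (Fin (N + 1))} (hh : h ∈ LE Q) :
    ∀ (m : ℕ) (g : Equiv.Perm (Fin (N + 1))),
      (N + 1) * (N * N) - pot (fun x => (h.symm x).val) g = m → g ∈ LE Q →
        |F g - F h| ≤ (m : ℝ) * L := by
  have hinj : Function.Injective (fun x : Fin (N + 1) => (h.symm x).val) := by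
    intro x y hxy
    exact h.symm.injective (Fin.ext hxy)
  intro m
  induction m using Nat.strong_induction_on with
  | _ m ih =>
    intro g hm hg
    by_cases h0 : des (fun x => (h.symm x).val) g = 0
    · have h1 := strictMono_of_des (fun x : Fin (N + 1) => (h.symm x).val) hinj g h0
      have h2 : StrictMono ((fun x : Fin (N + 1) => (h.symm x).val) ∘ h) := by
        intro i j hij
        simp only [Function.comp, Equiv.symm_apply_apply]
        exact hij
      have h3 : (fun x : Fin (N + 1) => (h.symm x).val) ∘ g =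
          (fun x : Fin (N + 1) => (h.symm x).val) ∘ h := by
        refine (StrictMono.range_inj h1 h2).1 ?_
        rw [Set.range_comp, Set.range_comp, g.surjective.range_eq, h.surjective.range_eq]
      have h4 : g = h := by
        ext i
        have h5 := congrFun h3 i
        have h6 : g i = h i := hinj h5
        rw [h6]
      rw [h4, sub_self, abs_zero]
      positivity
    · obtain ⟨p, hp⟩ : ∃ p : Fin N, (h.symm (g p.succ)).val < (h.symm (g p.castSucc)).val := by
        by_contra hcon
        push Not at hcon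
        apply h0
        unfold des
        rw [Finset.card_eq_zero, Finset.filter_eq_empty_iff]
        intro i _
        exact not_lt.2 (hcon i)
      have hQ : ¬ Q (g p.castSucc) (g p.succ) := by
        intro hq
        have h5 := mem_LE.1 hh (h.symm (g p.castSucc)) (h.symm (g p.succ)) (by
          rw [Equiv.apply_symm_apply, Equiv.apply_symm_apply]
          exact hq)
        have h6 : (h.symm (g p.castSucc)).val < (h.symm (g p.succ)).val := h5
        omega
      have hg' : sw g p ∈ LE Q := sw_mem hg hQ
      have hpot : pot (fun x => (h.symm x).val) g < pot (fun x => (h.symm x).val) (sw g p) :=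
        pot_swap _ g p hp
      have hle : pot (fun x => (h.symm x).val) (sw g p) ≤ (N + 1) * (N * N) :=
        pot_le (fun x => Nat.lt_succ_iff.1 (h.symm x).isLt) _
      have hlt : (N + 1) * (N * N) - pot (fun x => (h.symm x).val) (sw g p) < m := by omega
      have h7 := ih _ hlt (sw g p) rfl hg'
      have h8 : |F g - F (sw g p)| ≤ L := by
        have h9 := hF g hg p.castSucc p.succ Fin.castSucc_lt_succ hg'
        have h10 : (((p.succ).val : ℕ) : ℝ) - ((p.castSucc).val : ℝ) = 1 := by
          rw [Fin.val_succ, Fin.val_castSucc]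
          push_cast
          ring
        rw [h10, mul_one] at h9
        exact h9
      have h11 : |F g - F h| ≤ |F g - F (sw g p)| + |F (sw g p) - F h| := abs_sub_le _ _ _
      have h12 : (((N + 1) * (N * N) - pot (fun x => (h.symm x).val) (sw g p) : ℕ) : ℝ) + 1 ≤ m := by
        exact_mod_cast hlt
      nlinarith

theorem conn {N : ℕ} (Q : Rel (N + 1)) : ∃ D : ℝ, 0 ≤ D ∧
    ∀ (F : Equiv.Perm (Fin (N + 1)) → ℝ) (L : ℝ), 0 ≤ L → Lip Q F L → ∀ g ∈ LE Q, ∀ h ∈ LE Q,
      |F g - F h| ≤ D * L := by
  refine ⟨(((N + 1) * (N * N) : ℕ) : ℝ), Nat.cast_nonneg _, ?_⟩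
  intro F L hL hF g hg h hh
  refine (conn_aux hL hF hh _ g rfl hg).trans ?_
  refine mul_le_mul_of_nonneg_right ?_ hL
  exact_mod_cast Nat.sub_le _ _

end Pool.AP41
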