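import Pool.Agent.SC25.FlipA

set_option autoImplicit false

/-!
# AP41/Defs: approximate unimodality of descents for every poset (MP_dcdbc5_co)

THEOREM. For every poset with `n` elements and every labelling, the numbers `w_b` of linear
extensions with `b` descents satisfy `(n^3 - n) w_b ≥ 6 min (∑_{a ≤ b} w_a, ∑_{c > b} w_c)`.

`MM` is the (Bubley-Dyer) chain of swaps of neighbours with weights `cc N p = (p + 1) (N - p)`; it is
not normalised, the weights have the sum `KK N`.
-/

namespace Pool.AP41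

open Pool.HB45 Pool.PH43

/-- the weight of the positions `p, p + 1` -/
def cc (N : ℕ) (p : Fin N) : ℝ := ((p.val : ℝ) + 1) * ((N : ℝ) - p.val)

/-- the sum of the weights -/
def KK (N : ℕ) : ℝ := ∑ p : Fin N, cc N p

/-- average of `F` over the two orders of the letters at the positions `p, p + 1`, if both orders
are allowed -/
noncomputable def TT {N : ℕ} (Q : Rel (N + 1)) (F : Equiv.Perm (Fin (N + 1)) → ℝ) (p : Fin N)
    (g : Equiv.Perm (Fin (N + 1))) : ℝ := by
  classical
  exact if Q (g p.castSucc) (g p.succ) then F g else (F g + F (sw g p)) / 2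

/-- the chain -/
noncomputable def MM {N : ℕ} (Q : Rel (N + 1)) (F : Equiv.Perm (Fin (N + 1)) → ℝ)
    (g : Equiv.Perm (Fin (N + 1))) : ℝ :=
  ∑ p : Fin N, cc N p * TT Q F p g

/-- `F` is Lipschitz with constant `L` for the transposition distance `j - i` -/
def Lip {N : ℕ} (Q : Rel (N + 1)) (F : Equiv.Perm (Fin (N + 1)) → ℝ) (L : ℝ) : Prop :=
  ∀ g ∈ LE Q, ∀ i j : Fin (N + 1), i < j → g * Equiv.swap i j ∈ LE Q →
    |F g - F (g * Equiv.swap i j)| ≤ L * ((j.val : ℝ) - i.val)

theorem TT_pos {N : ℕ} {Q : Rel (N + 1)} {F : Equiv.Perm (Fin (N + 1)) → ℝ} {p : Fin N}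
    {g : Equiv.Perm (Fin (N + 1))} (h : Q (g p.castSucc) (g p.succ)) : TT Q F p g = F g := by
  classical
  unfold TT
  rw [if_pos h]

theorem TT_neg {N : ℕ} {Q : Rel (N + 1)} {F : Equiv.Perm (Fin (N + 1)) → ℝ} {p : Fin N}
    {g : Equiv.Perm (Fin (N + 1))} (h : ¬ Q (g p.castSucc) (g p.succ)) :
    TT Q F p g = (F g + F (sw g p)) / 2 := by
  classical
  unfold TT
  rw [if_neg h]

theorem cc_nonneg {N : ℕ} (p : Fin N) : 0 ≤ cc N p := by
  unfold cc
  have h1 : ((p.val : ℕ) : ℝ) ≤ N := by exact_mod_cast p.isLt.le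
  have h2 : (0 : ℝ) ≤ p.val := Nat.cast_nonneg _
  have : (0 : ℝ) ≤ (N : ℝ) - p.val := by linarith
  positivity

end Pool.AP41
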