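import Pool.Agent.AP41.Defs

set_option autoImplicit false

/-!
# AP41/Dir: the Dirichlet form of the indicator of `{des ≤ b}`
-/

namespace Pool.AP41

open Pool.HB45 Pool.PH43

open Classical in
/-- one position -/
theorem dir_p {N : ℕ} (Q : Rel (N + 1)) {lab : Fin (N + 1) → ℕ} (hinj : Function.Injective lab)
    (b : ℕ) (c : ℝ) (p : Fin N) (F : Equiv.Perm (Fin (N + 1)) → ℝ)
    (hF : ∀ g, F g = (if des lab g ≤ b then (1 : ℝ) else 0) - c) :
    ∑ g ∈ LE Q, (F g ^ 2 - F g * TT Q F p g) ≤ ((min (w Q lab b) (w Q lab (b + 1)) : ℕ) : ℝ) / 2 := by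
  obtain ⟨A, hA⟩ : ∃ A, A = (LE Q).filter (fun g => ¬ Q (g p.castSucc) (g p.succ) ∧
    des lab g = b ∧ des lab (sw g p) = b + 1) := ⟨_, rfl⟩
  obtain ⟨B, hB⟩ : ∃ B, B = (LE Q).filter (fun g => ¬ Q (g p.castSucc) (g p.succ) ∧
    des lab g = b + 1 ∧ des lab (sw g p) = b) := ⟨_, rfl⟩
  have mA : ∀ g, g ∈ A ↔ g ∈ LE Q ∧ ¬ Q (g p.castSucc) (g p.succ) ∧
      des lab g = b ∧ des lab (sw g p) = b + 1 := by
    intro g; rw [hA, Finset.mem_filter]
  have mB : ∀ g, g ∈ B ↔ g ∈ LE Q ∧ ¬ Q (g p.castSucc) (g p.succ) ∧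
      des lab g = b + 1 ∧ des lab (sw g p) = b := by
    intro g; rw [hB, Finset.mem_filter]
  have hnot : ∀ g ∈ LE Q, ¬ Q ((sw g p) p.castSucc) ((sw g p) p.succ) := by
    intro g hg hq
    rw [sw_left, sw_right] at hq
    have h := (mem_LE.1 hg) _ _ hq
    rw [Fin.lt_def] at h
    simp at h
  have hcard : A.card = B.card := by
    apply Finset.card_bij' (fun g _ => sw g p) (fun g _ => sw g p)
    · intro g hg
      obtain ⟨h1, h2, h3, h4⟩ := (mA g).1 hg
      exact (mB _).2 ⟨sw_mem h1 h2, hnot g h1, h4, by rw [sw_sw]; exact h3⟩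
    · intro g hg
      obtain ⟨h1, h2, h3, h4⟩ := (mB g).1 hg
      exact (mA _).2 ⟨sw_mem h1 h2, hnot g h1, h4, by rw [sw_sw]; exact h3⟩
    · intro g _
      exact sw_sw p g
    · intro g _
      exact sw_sw p g
  have hA1 : A.card ≤ w Q lab b := by
    unfold w
    apply Finset.card_le_card
    intro g hg
    obtain ⟨h1, h2, h3, h4⟩ := (mA g).1 hg
    rw [Finset.mem_filter]
    exact ⟨h1, h3⟩
  have hB1 : B.card ≤ w Q lab (b + 1) := by
    unfold w
    apply Finset.card_le_card
    intro g hg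
    obtain ⟨h1, h2, h3, h4⟩ := (mB g).1 hg
    rw [Finset.mem_filter]
    exact ⟨h1, h3⟩
  have hterm : ∀ g ∈ LE Q, F g ^ 2 - F g * TT Q F p g =
      (if g ∈ A then (1 - c) / 2 else 0) + (if g ∈ B then c / 2 else 0) := by
    intro g hg
    by_cases hQ : Q (g p.castSucc) (g p.succ)
    · have e1 : g ∉ A := fun h => ((mA g).1 h).2.1 hQ
      have e2 : g ∉ B := fun h => ((mB g).1 h).2.1 hQ
      rw [TT_pos hQ, if_neg e1, if_neg e2]
      ring
    · rw [TT_neg hQ]
      have eA : g ∈ A ↔ des lab g = b ∧ des lab (sw g p) = b + 1 := by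
        rw [mA]
        exact ⟨fun h => h.2.2, fun h => ⟨hg, hQ, h⟩⟩
      have eB : g ∈ B ↔ des lab g = b + 1 ∧ des lab (sw g p) = b := by
        rw [mB]
        exact ⟨fun h => h.2.2, fun h => ⟨hg, hQ, h⟩⟩
      rw [hF g, hF (sw g p)]
      simp only [eA, eB]
      rcases SC25.des_sw hinj g p with h | h | h
      · rw [h]
        have e1 : ¬ (des lab g = b ∧ des lab g = b + 1) := by omega
        have e2 : ¬ (des lab g = b + 1 ∧ des lab g = b) := by omega
        rw [if_neg e1, if_neg e2]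
        ring
      · rw [h]
        by_cases h1 : des lab g + 1 ≤ b
        · have e0 : des lab g ≤ b := by omega
          have e1 : ¬ (des lab g = b ∧ des lab g + 1 = b + 1) := by omega
          have e2 : ¬ (des lab g = b + 1 ∧ des lab g + 1 = b) := by omega
          rw [if_pos h1, if_pos e0, if_neg e1, if_neg e2]
          ring
        · by_cases h2 : des lab g ≤ b
          · have e1 : des lab g = b ∧ des lab g + 1 = b + 1 := by omega
            have e2 : ¬ (des lab g = b + 1 ∧ des lab g + 1 = b) := by omega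
            rw [if_neg h1, if_pos h2, if_pos e1, if_neg e2]
            ring
          · have e1 : ¬ (des lab g = b ∧ des lab g + 1 = b + 1) := by omega
            have e2 : ¬ (des lab g = b + 1 ∧ des lab g + 1 = b) := by omega
            rw [if_neg h1, if_neg h2, if_neg e1, if_neg e2]
            ring
      · by_cases h1 : des lab g ≤ b
        · have e0 : des lab (sw g p) ≤ b := by omega
          have e1 : ¬ (des lab g = b ∧ des lab (sw g p) = b + 1) := by omega
          have e2 : ¬ (des lab g = b + 1 ∧ des lab (sw g p) = b) := by omega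
          rw [if_pos h1, if_pos e0, if_neg e1, if_neg e2]
          ring
        · by_cases h2 : des lab (sw g p) ≤ b
          · have e1 : ¬ (des lab g = b ∧ des lab (sw g p) = b + 1) := by omega
            have e2 : des lab g = b + 1 ∧ des lab (sw g p) = b := by omega
            rw [if_neg h1, if_pos h2, if_neg e1, if_pos e2]
            ring
          · have e1 : ¬ (des lab g = b ∧ des lab (sw g p) = b + 1) := by omega
            have e2 : ¬ (des lab g = b + 1 ∧ des lab (sw g p) = b) := by omega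
            rw [if_neg h1, if_neg h2, if_neg e1, if_neg e2]
            ring
  rw [Finset.sum_congr rfl hterm, Finset.sum_add_distrib, ← Finset.sum_filter, ← Finset.sum_filter,
    Finset.sum_const, Finset.sum_const]
  have fA : (LE Q).filter (fun g => g ∈ A) = A := by
    ext g
    rw [Finset.mem_filter]
    exact ⟨fun h => h.2, fun h => ⟨((mA g).1 h).1, h⟩⟩
  have fB : (LE Q).filter (fun g => g ∈ B) = B := by
    ext g
    rw [Finset.mem_filter]
    exact ⟨fun h => h.2, fun h => ⟨((mB g).1 h).1, h⟩⟩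
  rw [fA, fB, hcard, nsmul_eq_mul, nsmul_eq_mul]
  have hmin : B.card ≤ min (w Q lab b) (w Q lab (b + 1)) := le_min (hcard ▸ hA1) hB1
  have hmin' : (B.card : ℝ) ≤ ((min (w Q lab b) (w Q lab (b + 1)) : ℕ) : ℝ) := by exact_mod_cast hmin
  calc (B.card : ℝ) * ((1 - c) / 2) + B.card * (c / 2) = B.card / 2 := by ring
    _ ≤ _ := by linarith

theorem dir {N : ℕ} (Q : Rel (N + 1)) {lab : Fin (N + 1) → ℕ} (hinj : Function.Injective lab)
    (b : ℕ) (c : ℝ) :
    KK N * ∑ g ∈ LE Q, ((if des lab g ≤ b then 1 else 0) - c) ^ 2 -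
      ∑ g ∈ LE Q, ((if des lab g ≤ b then 1 else 0) - c) *
        MM Q (fun g => (if des lab g ≤ b then 1 else 0) - c) g ≤
      KK N * (min (w Q lab b) (w Q lab (b + 1)) : ℕ) / 2 := by
  obtain ⟨F, hF⟩ : ∃ F : Equiv.Perm (Fin (N + 1)) → ℝ,
    F = fun g => (if des lab g ≤ b then (1 : ℝ) else 0) - c := ⟨_, rfl⟩
  have hF' : ∀ g, F g = (if des lab g ≤ b then (1 : ℝ) else 0) - c := fun g => by rw [hF]
  rw [← hF]
  simp only [← hF']
  have h1 : KK N * ∑ g ∈ LE Q, F g ^ 2 - ∑ g ∈ LE Q, F g * MM Q F g =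
      ∑ p : Fin N, cc N p * ∑ g ∈ LE Q, (F g ^ 2 - F g * TT Q F p g) := by
    have e1 : KK N * ∑ g ∈ LE Q, F g ^ 2 = ∑ p : Fin N, cc N p * ∑ g ∈ LE Q, F g ^ 2 := by
      unfold KK
      rw [Finset.sum_mul]
    have e2 : ∑ g ∈ LE Q, F g * MM Q F g =
        ∑ p : Fin N, cc N p * ∑ g ∈ LE Q, F g * TT Q F p g := by
      unfold MM
      simp only [Finset.mul_sum]
      rw [Finset.sum_comm]
      refine Finset.sum_congr rfl fun p _ => Finset.sum_congr rfl fun g _ => ?_
      ring
    rw [e1, e2, ← Finset.sum_sub_distrib]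
    refine Finset.sum_congr rfl fun p _ => ?_
    rw [Finset.sum_sub_distrib]
    ring
  rw [h1]
  have h2 : ∑ p : Fin N, cc N p * ∑ g ∈ LE Q, (F g ^ 2 - F g * TT Q F p g) ≤
      ∑ p : Fin N, cc N p * (((min (w Q lab b) (w Q lab (b + 1)) : ℕ) : ℝ) / 2) :=
    Finset.sum_le_sum fun p _ =>
      mul_le_mul_of_nonneg_left (dir_p Q hinj b c p F hF') (cc_nonneg p)
  refine h2.trans (le_of_eq ?_)
  rw [← Finset.sum_mul]
  unfold KK
  ring

end Pool.AP41
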