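import Mathlib

/-!
# AP41/GapAbsS76: growth of the iterates of a self-adjoint operator bounds its quadratic form
-/

set_option autoImplicit false

namespace Pool.AP41

open Finset Filter Topology

theorem gap_abs {X : Type*} (S : Finset X) (M : (X → ℝ) → (X → ℝ))
    (hsa : ∀ F G : X → ℝ, ∑ x ∈ S, M F x * G x = ∑ x ∈ S, F x * M G x) (F : X → ℝ) {r C : ℝ}
    (hr : 0 ≤ r) (hC : ∀ k : ℕ, ∑ x ∈ S, (M^[k] F x) ^ 2 ≤ C * r ^ (2 * k)) :
    ∑ x ∈ S, F x * M F x ≤ r * ∑ x ∈ S, F x ^ 2 := by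
  let b : ℕ → ℝ := fun k => ∑ x ∈ S, (M^[k] F x) ^ 2
  have hb0 : ∀ k, 0 ≤ b k := fun k => sum_nonneg fun x _ => sq_nonneg _
  have hb : b 0 = ∑ x ∈ S, F x ^ 2 := rfl
  have hlc : ∀ k, b (k + 1) ^ 2 ≤ b k * b (k + 2) := by
    intro k
    have h1 : b (k + 1) = ∑ x ∈ S, M^[k] F x * M^[k + 2] F x := by
      have h2 : b (k + 1) = ∑ x ∈ S, M (M^[k] F) x * M^[k + 1] F x := by
        refine sum_congr rfl fun x _ => ?_
        rw [sq, Function.iterate_succ_apply']
      rw [h2, hsa]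
      refine sum_congr rfl fun x _ => ?_
      rw [Function.iterate_succ_apply' M (k + 1)]
    rw [h1]
    exact sum_mul_sq_le_sq_mul_sq S _ _
  have hcs : (∑ x ∈ S, F x * M F x) ^ 2 ≤ b 0 * b 1 := sum_mul_sq_le_sq_mul_sq S _ _
  have key : b 1 ≤ r ^ 2 * b 0 := by
    by_contra hcon
    push Not at hcon
    rcases (hb0 0).lt_or_eq with h0 | h0
    swap
    · -- `b 0 = 0`: then `b 1 ^ 2 ≤ b 0 * b 2 = 0`
      have h1 := hlc 0
      rw [zero_add, ← h0, zero_mul] at h1
      rw [← h0, mul_zero] at hcon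
      nlinarith
    obtain ⟨q, hq⟩ : ∃ q, q = b 1 / b 0 := ⟨_, rfl⟩
    have hqr : r ^ 2 < q := by rw [hq, lt_div_iff₀ h0]; exact hcon
    have hq0 : 0 < q := lt_of_le_of_lt (sq_nonneg r) hqr
    have hstep : ∀ k, 0 < b k ∧ q * b k ≤ b (k + 1) := by
      intro k
      induction k with
      | zero =>
        refine ⟨h0, ?_⟩
        rw [hq, zero_add]
        exact (div_mul_cancel₀ _ h0.ne').le
      | succ k ih =>
        obtain ⟨h1, h2⟩ := ih
        have h3 : 0 < b (k + 1) := lt_of_lt_of_le (mul_pos hq0 h1) h2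
        refine ⟨h3, ?_⟩
        have h4 := hlc k
        have h5 : b k * (q * b (k + 1)) ≤ b k * b (k + 1 + 1) := by
          calc b k * (q * b (k + 1)) = (q * b k) * b (k + 1) := by ring
            _ ≤ b (k + 1) * b (k + 1) := mul_le_mul_of_nonneg_right h2 h3.le
            _ = b (k + 1) ^ 2 := by ring
            _ ≤ b k * b (k + 1 + 1) := h4
        exact le_of_mul_le_mul_left h5 h1
    have hgrow : ∀ k, b 0 * q ^ k ≤ b k := by
      intro k
      induction k with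
      | zero => simp
      | succ k ih =>
        calc b 0 * q ^ (k + 1) = q * (b 0 * q ^ k) := by ring
          _ ≤ q * b k := mul_le_mul_of_nonneg_left ih hq0.le
          _ ≤ b (k + 1) := (hstep k).2
    have hle : ∀ k : ℕ, b 0 ≤ C * (r ^ 2 / q) ^ k := by
      intro k
      have h1 := (hgrow k).trans (hC k)
      rw [div_pow, ← mul_div_assoc, le_div_iff₀ (pow_pos hq0 k), ← pow_mul]
      exact h1
    have hlim : Tendsto (fun k : ℕ => C * (r ^ 2 / q) ^ k) atTop (𝓝 (C * 0)) := by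
      refine Tendsto.const_mul C (tendsto_pow_atTop_nhds_zero_of_lt_one ?_ ?_)
      · exact div_nonneg (sq_nonneg r) hq0.le
      · rwa [div_lt_one hq0]
    rw [mul_zero] at hlim
    have := ge_of_tendsto' hlim hle
    linarith
  have h1 : (∑ x ∈ S, F x * M F x) ^ 2 ≤ (r * b 0) ^ 2 := by
    calc (∑ x ∈ S, F x * M F x) ^ 2 ≤ b 0 * b 1 := hcs
      _ ≤ b 0 * (r ^ 2 * b 0) := mul_le_mul_of_nonneg_left key (hb0 0)
      _ = (r * b 0) ^ 2 := by ring
  rw [← hb]
  exact le_of_abs_le (abs_le_of_sq_le_sq h1 (mul_nonneg hr (hb0 0)))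

end Pool.AP41
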